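import Mathlib

set_option autoImplicit false

namespace Pool.Agent.Results.MP_425159_co.OrderModFour

open Equiv

/-- Sign of the coordinate swap on `S × S`. -/
theorem swap_even {S : Type} [Fintype S] [DecidableEq S]
    (h : Perm.sign (Equiv.prodComm S S : Perm (S × S)) = 1) :
    Fintype.card S % 4 = 0 ∨ Fintype.card S % 4 = 1 := by
  classical
  set W : Perm (S × S) := Equiv.prodComm S S with hW
  have hsupp : W.support.card + Fintype.card S = Fintype.card S * Fintype.card S := by
    have h1 : W.support = (Finset.univ : Finset (S × S)).filter (fun p => p.1 ≠ p.2) := by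
      ext p
      simp only [Perm.mem_support, Finset.mem_filter, Finset.mem_univ, true_and, hW]
      constructor
      · intro hp he
        apply hp
        rcases p with ⟨a, b⟩
        simp at he
        subst he
        rfl
      · intro hp he
        apply hp
        rcases p with ⟨a, b⟩
        have := congrArg Prod.snd he
        simpa using this
    have h2 : ((Finset.univ : Finset (S × S)).filter (fun p => p.1 = p.2)).card
        = Fintype.card S := by
      have : (Finset.univ : Finset (S × S)).filter (fun p => p.1 = p.2)
          = (Finset.univ : Finset S).map ⟨fun a => (a, a), fun a b hab => by simpa using hab⟩ := by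
        ext ⟨a, b⟩
        simp only [Finset.mem_filter, Finset.mem_univ, true_and, Finset.mem_map]
        constructor
        · intro h; exact ⟨a, by rw [← h]; rfl⟩
        · rintro ⟨c, hc⟩
          have h1 : c = a := congrArg Prod.fst hc
          have h2 : c = b := congrArg Prod.snd hc
          rw [← h1, ← h2]
      rw [this, Finset.card_map]; rfl
    have h3 := Finset.card_filter_add_card_filter_not (s := (Finset.univ : Finset (S × S)))
      (fun p => p.1 = p.2)
    rw [h2] at h3
    rw [h1]
    simp only [ne_eq]
    have h4 : (Finset.univ : Finset (S × S)).card = Fintype.card S * Fintype.card S := by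
      rw [Finset.card_univ, Fintype.card_prod]
    omega
  have hsq : W ^ 2 = 1 := by
    ext p <;> rcases p with ⟨a, b⟩ <;> simp [pow_two, hW]
  by_cases hone : W = 1
  · have : W.support.card = 0 := by rw [hone]; simp
    rw [this, zero_add] at hsupp
    have : Fintype.card S = 0 ∨ Fintype.card S = 1 := by
      rcases Nat.eq_zero_or_pos (Fintype.card S) with h0 | h0
      · exact Or.inl h0
      · right
        have := Nat.eq_of_mul_eq_mul_left h0 (by rw [← hsupp, mul_one] : Fintype.card S * Fintype.card S = Fintype.card S * 1)
        exact this
    rcases this with h0 | h0 <;> simp [h0]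
  · have hord : orderOf W = 2 := orderOf_eq_prime hsq hone
    have hp : (orderOf W).Prime := by rw [hord]; exact Nat.prime_two
    obtain ⟨k, hk⟩ := Perm.cycleType_prime_order hp
    rw [hord] at hk
    have hsum := Perm.sum_cycleType W
    rw [hk] at hsum
    simp only [Multiset.sum_replicate, smul_eq_mul] at hsum
    have hs := Perm.sign_of_cycleType W
    rw [h, hk] at hs
    simp only [Multiset.sum_replicate, smul_eq_mul, Multiset.card_replicate] at hs
    have heven : Even (k + 1) := by
      by_contra hodd
      rw [Nat.not_even_iff_odd] at hodd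
      have : ((-1 : ℤˣ)) ^ ((k + 1) * 2 + (k + 1)) = -1 := by
        rw [pow_add, pow_mul, Odd.neg_one_pow hodd]
        decide
      rw [this] at hs
      exact absurd hs (by decide)
    obtain ⟨m, hm⟩ := heven
    set n := Fintype.card S
    have h5 : n * n = 4 * m + n := by rw [← hsupp, ← hsum, hm]; ring
    have h6 : (n * n) % 4 = n % 4 := by rw [h5]; omega
    rw [Nat.mul_mod] at h6
    have h7 : n % 4 < 4 := Nat.mod_lt _ (by norm_num)
    generalize n % 4 = t at h6 h7
    interval_cases t
    · left; rfl
    · right; rfl
    · exact absurd h6 (by decide)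
    · exact absurd h6 (by decide)

/-- If a finite quasigroup satisfies `((xy)x)y = x`, then its order is `0` or `1` modulo `4`. -/
theorem result (S : Type) [Fintype S] (mul : S → S → S)
    (hleft : ∀ a b : S, ∃! x : S, mul a x = b)
    (hright : ∀ a b : S, ∃! x : S, mul x a = b)
    (hE : ∀ x y : S, mul (mul (mul x y) x) y = x) :
    Fintype.card S % 4 = 0 ∨ Fintype.card S % 4 = 1 := by
  classical
  have hL : Function.Bijective (fun p : S × S => (p.1, mul p.1 p.2)) := by
    rw [← Finite.injective_iff_bijective]
    rintro ⟨a, b⟩ ⟨c, d⟩ h
    simp only [Prod.mk.injEq] at h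
    obtain ⟨rfl, h2⟩ := h
    rw [(hleft a (mul a d)).unique h2 rfl]
  have hR : Function.Bijective (fun p : S × S => (p.1, mul p.2 p.1)) := by
    rw [← Finite.injective_iff_bijective]
    rintro ⟨a, b⟩ ⟨c, d⟩ h
    simp only [Prod.mk.injEq] at h
    obtain ⟨rfl, h2⟩ := h
    rw [(hright a (mul d a)).unique h2 rfl]
  let L : Perm (S × S) := Equiv.ofBijective _ hL
  let R : Perm (S × S) := Equiv.ofBijective _ hR
  let W : Perm (S × S) := Equiv.prodComm S S
  have key : W * L = (R * L) * W * R * W := by
    ext1 p
    rcases p with ⟨r, c⟩
    have h1 : mul (mul (mul r c) c) (mul r c) = r := by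
      have := hE (mul r c) c
      exact (hright c (mul r c)).unique this rfl
    simp [W, L, R, h1]
  have hs := congrArg Perm.sign key
  simp only [Perm.sign_mul] at hs
  apply swap_even
  have hsq : ∀ u : ℤˣ, u * u = 1 := fun u => by
    rcases Int.units_eq_one_or u with h | h <;> simp [h]
  have : Perm.sign W * Perm.sign L = Perm.sign L * ((Perm.sign R * Perm.sign R) * (Perm.sign W * Perm.sign W)) := by
    rw [hs]; ac_rfl
  rw [hsq, hsq, mul_one, mul_one] at this
  have h8 := congrArg (fun t => t * Perm.sign L) this
  simp only [mul_assoc, hsq, mul_one] at h8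
  exact h8

end Pool.Agent.Results.MP_425159_co.OrderModFour
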